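import Pool.Agent.Lib.MP_a98e84_gt.TG.Main

set_option autoImplicit false

namespace Pool.Agent.Results.MP_a98e84_gt.SymmetricDomains

open Pool.Agent.MP_a98e84_gt.TG

/-- Twisted geodesic flows on compact quotients `Γ \ X` of products `X` of classical bounded symmetric domains (unit
balls of `J*`-algebras of matrices), for the metrics `∑ a i g i` and the symplectic forms `∑ b i ω i`: every energy level
except `cs` carries a periodic orbit, and the level `cs` is aperiodic if and only if every `γ ≠ 1` has, in every factor,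
at least as many eigenvalues of modulus larger than one as the maximal rank. For quotients of the ball of `ℂ ^ n` the
level `cs` is aperiodic. -/
theorem result :
    (∀ (ι : Type) [Fintype ι] [Nonempty ι] (p q : ι → ℕ) (V : ∀ i, Submodule ℂ (Matrix (Fin (p i)) (Fin (q i)) ℂ)),
      (∀ i, JStar (V i)) → (∀ i, V i ≠ ⊥) → ∀ a b : ι → ℝ, (∀ i, 0 < a i) → (∀ i, b i ≠ 0) →
      ∀ (Γ : Type) [Group Γ] [MulAction Γ (dom V)] [ProperlyDiscontinuousSMul Γ (dom V)]
        [CompactSpace (Quotient (MulAction.orbitRel Γ (dom V)))],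
      (∀ γ : Γ, ∃ G, Lifts V γ G) → (∀ (γ : Γ) (W : dom V), γ • W = W → γ = 1) →
      (∀ c, 0 < c → c < cs V a b → ∃ (x x' : ℝ → EE p q) (T : ℝ),
        Sol (dom V) {v | ∀ i, v i ∈ V i} (met a) (frm b) x x' ∧ (∀ t, met a (x t) (x' t) (x' t) / 2 = c) ∧ 0 < T ∧
        ∀ t, x (t + T) = x t) ∧
      (∀ γ : Γ, γ ≠ 1 → ∀ G, Lifts V γ G →
        ∀ c, ∑ i, ((min (maxRank (V i)) (hyp (G i)) : ℕ) : ℝ) * b i ^ 2 / (8 * a i) < c →
        ∃ (x x' : ℝ → EE p q) (T : ℝ), Sol (dom V) {v | ∀ i, v i ∈ V i} (met a) (frm b) x x' ∧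
          (∀ t, met a (x t) (x' t) (x' t) / 2 = c) ∧ 0 < T ∧
          ∀ t (h : x t ∈ dom V) (h' : x (t + T) ∈ dom V), γ • (⟨x t, h⟩ : dom V) = ⟨x (t + T), h'⟩) ∧
      (∀ c, 0 < c → c ≠ cs V a b → HasPer V a b Γ c) ∧
      (HasPer V a b Γ (cs V a b) ↔ ∃ γ : Γ, γ ≠ 1 ∧ ∃ G, Lifts V γ G ∧ ∃ i, hyp (G i) < maxRank (V i))) ∧
    (∀ n : ℕ, 0 < n → ∀ a b : Unit → ℝ, (∀ i, 0 < a i) → (∀ i, b i ≠ 0) →
      ∀ (Γ : Type) [Group Γ] [MulAction Γ (dom (p := fun _ => n) (q := fun _ => 1) (bv n))]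
        [ProperlyDiscontinuousSMul Γ (dom (p := fun _ => n) (q := fun _ => 1) (bv n))]
        [CompactSpace (Quotient (MulAction.orbitRel Γ (dom (p := fun _ => n) (q := fun _ => 1) (bv n))))],
      (∀ γ : Γ, ∃ G, Lifts (p := fun _ => n) (q := fun _ => 1) (bv n) γ G) →
      (∀ (γ : Γ) (W : dom (p := fun _ => n) (q := fun _ => 1) (bv n)), γ • W = W → γ = 1) →
      ¬ HasPer (p := fun _ => n) (q := fun _ => 1) (bv n) a b Γ
        (cs (p := fun _ => n) (q := fun _ => 1) (bv n) a b)) := by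
  refine ⟨?_, ?_⟩
  · intro ι _ _ p q V hV hV0 a b ha hb Γ _ _ _ _ hact hfree
    exact main V hV hV0 a b ha hb Γ hact hfree
  · intro n hn a b ha hb Γ _ _ _ _ hact hfree
    exact ball_main hn a b ha hb Γ hact hfree

end Pool.Agent.Results.MP_a98e84_gt.SymmetricDomains
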